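import Pool.Agent.Q80.DC.Eq

/-!
The order of magnitude of the `2k`-th moment of the Riemann zeta function is decided by the decay of
the moments at distances `a / log T` from the critical line: explicit two-sided inequalities for
the moments off the line and for the correlations on the line, with the diagonal as second main
term, and a dichotomy (power decay or exponential decay in `a`).
-/

set_option autoImplicit false

open MeasureTheory Filter Topology Set ComplexConjugate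

namespace Pool.Agent.Results.MP_80d0cf_nt.DecayOffTheLine

noncomputable section

/-- The `2k`-th moment at the distance `a / log T` from the critical line, in the Gaussian window
with centre `T` and width `U`. -/
def J (k : ℕ) (T U a : ℝ) : ℝ :=
  ∫ t : ℝ, ‖riemannZeta (((1 / 2 + a / Real.log T : ℝ) : ℂ) + t * Complex.I)‖ ^ (2 * k) *
    Real.exp (-((t - T) / U) ^ 2)

/-- The `2k`-th moment on the critical line. -/
def M (k : ℕ) (T U : ℝ) : ℝ :=
  ∫ t : ℝ, ‖riemannZeta (1 / 2 + t * Complex.I)‖ ^ (2 * k) * Real.exp (-((t - T) / U) ^ 2)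

/-- The correlation of `ζ ^ k` with itself at the distance `h / log T` on the critical line. -/
def C (k : ℕ) (T U h : ℝ) : ℂ :=
  ∫ t : ℝ, riemannZeta (1 / 2 + ((t + h / Real.log T : ℝ) : ℂ) * Complex.I) ^ k *
    conj (riemannZeta (1 / 2 + t * Complex.I) ^ k) * (Real.exp (-((t - T) / U) ^ 2) : ℂ)

/-- The number of ordered factorisations of `n` into `k` positive factors. -/
def dk (k n : ℕ) : ℕ := (Nat.finMulAntidiag k n).card

/-- The arithmetic constant `a_k`. -/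
def ak (k : ℕ) : ℝ := ∏' p : Nat.Primes,
  (1 - 1 / (p : ℝ)) ^ (k ^ 2) * ∑' m : ℕ, (dk k ((p : ℕ) ^ m) : ℝ) ^ 2 / (p : ℝ) ^ m

/-- The diagonal: `a_k (log T) ^ (k²)` times the mass `√π U` of the window. -/
def D (k : ℕ) (T U : ℝ) : ℝ := √Real.pi * ak k * (U * Real.log T ^ (k ^ 2))

/-- The edge integral `∫_0^θ x ^ (k² - 1) / (k² - 1)! (G(x) - c) dx`. -/
def edge (k : ℕ) (θ : ℝ) (G : ℝ → ℝ) (c : ℝ) : ℝ :=
  ∫ x in (0 : ℝ)..θ, x ^ (k ^ 2 - 1) / (k ^ 2 - 1).factorial * (G x - c)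

/-- The function `e^{-ak} cosh (a (k - 2x))`. -/
def E (k : ℕ) (a x : ℝ) : ℝ := Real.exp (-(a * k)) * Real.cosh (a * (k - 2 * x))

theorem M_eq (k : ℕ) (T U : ℝ) : M k T U = Q97.MM.M0 k T U := by
  unfold M Q97.MM.M0 Q97.MM.JJ Q97.MM.wt
  norm_num

theorem J_eq (k : ℕ) (T U a : ℝ) : J k T U a = Q97.MM.Ja k T U a := rfl

theorem C_eq (k : ℕ) (T U h : ℝ) : C k T U h = Q97.MM.CZ k T U (h / Real.log T) := by
  unfold C Q97.MM.CZ Q97.MM.wt Q97.MM.pt
  norm_num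

theorem D_eq (k : ℕ) (T U : ℝ) : D k T U = _root_.Q80.DC.DD k T U := rfl

theorem E_eq (k : ℕ) (a x : ℝ) : E k a x = _root_.Q80.DC.Gf k a (2 * x) := by
  rw [_root_.Q80.DC.Gf_cosh]
  rfl

theorem E_mid (k : ℕ) (a : ℝ) : _root_.Q80.DC.Gf k a k = Real.exp (-(a * k)) := by
  rw [_root_.Q80.DC.Gf_cosh, sub_self, mul_zero, Real.cosh_zero, mul_one]

theorem edge_eq (k : ℕ) (θ : ℝ) (G : ℝ → ℝ) (H : ℝ → ℝ) (hGH : ∀ x, G x = H (2 * x)) (c : ℝ) :
    edge k θ G c = _root_.Q80.DC.EE k θ H c := by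
  unfold edge _root_.Q80.DC.EE _root_.Q80.DC.gk
  simp only [hGH]

theorem Gc_eq (k : ℕ) (h x : ℝ) : Real.cos (h * (k - 2 * x) / 2) = _root_.Q80.DC.Gc k h (2 * x) := by
  unfold _root_.Q80.DC.Gc
  rw [← Real.cos_neg]
  congr 1
  ring

/-- Let `k ≥ 1`, `0 ≤ θ < u` and `2θ < k`.
1. For all real `a` and all `ε > 0`, uniformly over the windows `T^u ≤ U ≤ T / log T`, the moment
`J(a)` at the distance `a / log T` lies between
`(e^{-ak} - ε) M + 2D ∫_0^θ x^(k²-1)/(k²-1)! (E(x) - e^{-ak}) dx` and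
`(E(θ) + ε) M + 2D ∫_0^θ x^(k²-1)/(k²-1)! (E(x) - E(θ)) dx`.
2. The same for the correlation of Hardy's `Z^k` at the distance `h / log T`, `|kh| ≤ 2π`, with
`cos (h (k - 2x) / 2)`.
3. For sequences of windows, three properties are equivalent: the moment is `O (U (log T)^(k²))`;
for some `a` and some `θ < min (u, k/2)` the quotient `J(a) / M` stays above `E(θ) + δ`, `δ > 0`; for
some `c > 0`, `J(a) / M` is eventually at least `c a^(-k²)`, for every `a ≥ 1`. -/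
theorem result (k : ℕ) (hk : 1 ≤ k) (u : ℝ) (hu : 0 < u) :
    (∀ θ : ℝ, 0 ≤ θ → θ < u → 2 * θ < k →
      (∀ a ε : ℝ, 0 < ε → ∃ T₀ : ℝ, ∀ T : ℝ, T₀ ≤ T → ∀ U : ℝ, T ^ u ≤ U → U ≤ T / Real.log T →
        (Real.exp (-(a * k)) - ε) * M k T U + 2 * edge k θ (E k a) (Real.exp (-(a * k))) * D k T U ≤
          J k T U a ∧
        J k T U a ≤ (E k a θ + ε) * M k T U + 2 * edge k θ (E k a) (E k a θ) * D k T U) ∧
      (∀ h ε : ℝ, |k * h| ≤ 2 * Real.pi → 0 < ε → ∃ T₀ : ℝ, ∀ T : ℝ, T₀ ≤ T → ∀ U : ℝ,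
        T ^ u ≤ U → U ≤ T / Real.log T →
        (Real.cos (h * (k - 2 * θ) / 2) - ε) * M k T U +
            2 * edge k θ (fun x => Real.cos (h * (k - 2 * x) / 2))
              (Real.cos (h * (k - 2 * θ) / 2)) * D k T U ≤
          (Complex.exp (((k * h / 2 : ℝ) : ℂ) * Complex.I) * C k T U h).re ∧
        (Complex.exp (((k * h / 2 : ℝ) : ℂ) * Complex.I) * C k T U h).re ≤
          (1 + ε) * M k T U +
            2 * edge k θ (fun x => Real.cos (h * (k - 2 * x) / 2)) 1 * D k T U)) ∧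
    ∀ T U : ℕ → ℝ, Tendsto T atTop atTop → (∀ j, T j ^ u ≤ U j) →
      (∀ j, U j ≤ T j / Real.log (T j)) →
      List.TFAE [
        ∃ B : ℝ, ∀ᶠ j in atTop, M k (T j) (U j) ≤ B * (U j * Real.log (T j) ^ (k ^ 2)),
        ∃ a θ δ : ℝ, 0 ≤ θ ∧ θ < u ∧ 2 * θ < k ∧ 0 < δ ∧ ∀ᶠ j in atTop,
          (E k a θ + δ) * M k (T j) (U j) ≤ J k (T j) (U j) a,
        ∃ c : ℝ, 0 < c ∧ ∀ a : ℝ, 1 ≤ a → ∀ᶠ j in atTop,
          c * (a ^ (k ^ 2))⁻¹ * M k (T j) (U j) ≤ J k (T j) (U j) a] := by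
  refine ⟨fun θ h0 hθ hθk => ⟨fun a ε hε => ?_, fun h ε hh hε => ?_⟩, fun T U hT hU1 hU2 => ?_⟩
  · obtain ⟨T₀, hT₀⟩ := _root_.Q80.DC.off_line hk hu a h0 hθ hθk hε
    refine ⟨T₀, fun T hT U hU1 hU2 => ?_⟩
    have q := hT₀ T hT U hU1 hU2
    rw [M_eq, D_eq, J_eq, edge_eq k θ (E k a) _ (E_eq k a), edge_eq k θ (E k a) _ (E_eq k a),
      E_eq, ← E_mid]
    exact q
  · obtain ⟨T₀, hT₀⟩ := _root_.Q80.DC.corr hk hu hh h0 hθ hθk hε
    refine ⟨T₀, fun T hT U hU1 hU2 => ?_⟩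
    have q := hT₀ T hT U hU1 hU2
    rw [M_eq, D_eq, C_eq, edge_eq k θ _ _ (Gc_eq k h), edge_eq k θ _ _ (Gc_eq k h), Gc_eq]
    exact q
  · have q := _root_.Q80.DC.order_iff hk hu hT hU1 hU2
    simp only [M_eq, J_eq, E_eq]
    exact q

end

end Pool.Agent.Results.MP_80d0cf_nt.DecayOffTheLine
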