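import Pool.Agent.Q80.EW.FinX
import Pool.Agent.Q80.EW.Stm7
import Pool.Agent.Q80.EWF.FRZ
import Pool.Agent.Q80.EWF.HIP
import Pool.Agent.Q251.EW.EF

set_option autoImplicit false

/-!
Moments of zeta of every real order `β ≥ 2`, and the number of high points, over windows of length
`exp (y √(log log T))` on the critical line.
-/

namespace Pool.Agent.Results.MP_80d0cf_nt.FrozenMoments

open Filter Topology MeasureTheory

noncomputable section

/-- zeta on the critical line -/
def z (u : ℝ) : ℂ := riemannZeta ((1 / 2 : ℂ) + (u : ℂ) * Complex.I)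

/-- the moment of order `β` of zeta over the window `[t, t + U]` on the critical line -/
def windowMoment (β U t : ℝ) : ℝ := 1 / U * ∫ u in t..(t + U), ‖z u‖ ^ β

/-- the proportion of the window `[t, t + U]` where `|zeta|` is larger than `V` -/
def highFraction (V U t : ℝ) : ℝ := (volume {u : ℝ | u ∈ Set.Icc t (t + U) ∧ V < ‖z u‖}).toReal / U

theorem result :
    (∀ β ε K : ℝ, 2 ≤ β → 0 < ε → ∀ᶠ T : ℝ in atTop, ∀ U : ℝ,
      Real.exp (ε * Real.sqrt (Real.log (Real.log T))) ≤ U →
      U ≤ Real.exp (K * Real.sqrt (Real.log (Real.log T))) →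
        (volume {t : ℝ | t ∈ Set.Icc T (2 * T) ∧
          ε * Real.sqrt (Real.log (Real.log T)) <
            |Real.log (windowMoment β U t) -
              ((β - 1) * Real.log (Real.log T) + (β / 2 - 1) * Real.log U)|}).toReal ≤ ε * T) ∧
    (∀ A ε K : ℝ, 0 < ε → ∀ᶠ T : ℝ in atTop, ∀ U : ℝ,
      Real.exp (ε * Real.sqrt (Real.log (Real.log T))) ≤ U →
      U ≤ Real.exp (K * Real.sqrt (Real.log (Real.log T))) →
        (volume {t : ℝ | t ∈ Set.Icc T (2 * T) ∧
          ∃ x ∈ Set.Icc (-A) (Real.log U / (2 * Real.sqrt (Real.log (Real.log T))) - ε),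
            ε * Real.sqrt (Real.log (Real.log T)) <
              |Real.log (highFraction
                  (Real.exp (x * Real.sqrt (Real.log (Real.log T))) * Real.log T) U t) +
                (Real.log (Real.log T) + 2 * x * Real.sqrt (Real.log (Real.log T)))|}).toReal
          ≤ ε * T) :=
  ⟨_root_.Pool.Agent.Q80.EWF.t_FRZ _root_.Pool.Agent.Q80.EW.all _root_.Pool.Agent.Q80.EW.finX
      _root_.Pool.Agent.Q80.EW.finM _root_.Pool.Agent.Q251.EW.t_EF,
    _root_.Pool.Agent.Q80.EWF.t_HIP _root_.Pool.Agent.Q80.EW.all _root_.Pool.Agent.Q80.EW.finX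
      _root_.Pool.Agent.Q251.EW.t_EF⟩

end

end Pool.Agent.Results.MP_80d0cf_nt.FrozenMoments
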