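import Pool.Agent.Q286.SB.Rare

/-!
# The second moment of zeta inside universality classes

Let `K` be a compact subset of the strip `1/2 < Re s < 1` and `f` an arbitrary function on `K`;
`S ε K f` is the set of the real `t` with `sup_{s ∈ K} |ζ(s + it) - f(s)| < ε`.

1. Under the measure `|ζ(1/2 + it)|² dt` on `[0, T]` (total mass `~ T log T`) the numbers `p^{-it}`,
   `p ≤ M`, become independent in the limit, each with the density of a Poisson kernel with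
   parameter `p^{-1/2}`.
2. Universality for this measure: the second moment over `S ε K f ∩ [0, T]` is `~ D(ε) T log T` for
   all but countably many `ε > 0`; `D` is positive if and only if `f` is a target of Voronin's
   theorem, and then the mean of `|ζ(1/2 + it)|²` over `S ε K f ∩ [0, T]` is `~ c(ε) log T` with
   `c(ε) > 0`.
3. Local criterion: zeta has no zero in the interior of the hull of `K` if and only if for every `ε`
   the shifts with `ζ(s + it) ≈ ζ(s)` on `K` carry a positive proportion of the second moment; a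
   zero `z₀` there bounds their second moment by `T^(1-δ)`, `δ < 2/3 (Re z₀ - 1/2)`.
4. Equivalents of the Riemann hypothesis.

No hypothesis is assumed.
-/

set_option autoImplicit false

open Complex Filter Set MeasureTheory Topology

namespace Pool.Agent.Results.MP_80d0cf_nt.SecondMomentInClasses

/-- the hull of `K`: the union of `K` and of the bounded components of its complement -/
def hull (K : Set ℂ) : Set ℂ :=
  K ∪ {z | z ∉ K ∧ Bornology.IsBounded (connectedComponentIn Kᶜ z)}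

/-- `f` extends from `K` to a function `g` which is continuous on the hull of `K` and holomorphic in
the interior of the hull, and on each component of the interior either free of zeros or
identically zero -/
def IsTarget (K : Set ℂ) (f : ℂ → ℂ) : Prop :=
  ∃ g : ℂ → ℂ, (∀ z ∈ K, g z = f z) ∧ ContinuousOn g (hull K) ∧
    DifferentiableOn ℂ g (interior (hull K)) ∧
    ∀ z ∈ interior (hull K),
      (∀ w ∈ connectedComponentIn (interior (hull K)) z, g w ≠ 0) ∨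
      (∀ w ∈ connectedComponentIn (interior (hull K)) z, g w = 0)

/-- `S ε K f`: the real `t` with `sup_{z ∈ K} |ζ(z + it) - f(z)| < ε` -/
def S (ε : ℝ) (K : Set ℂ) (f : ℂ → ℂ) : Set ℝ :=
  {t : ℝ | ∃ δ < ε, ∀ z ∈ K, ‖riemannZeta (z + t * I) - f z‖ ≤ δ}

/-- the second moment over `A ∩ [0, T]` -/
noncomputable def M2 (A : Set ℝ) (T : ℝ) : ℝ := ∫ t in A ∩ Icc 0 T, ‖riemannZeta (1 / 2 + t * I)‖ ^ 2

/-- the primes `≤ M` -/
def primesUpTo (M : ℕ) : Finset ℕ := (Finset.Icc 1 M).filter Nat.Prime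

/-- an enumeration of the primes `≤ M` -/
noncomputable def prime (M : ℕ) (j : Fin (primesUpTo M).card) : ℕ :=
  ((primesUpTo M).equivFin.symm j : ℕ)

/-- the point of the torus with the coordinates `(t log p) / (2 π)` mod 1, for the primes `p ≤ M` -/
noncomputable def point (M : ℕ) (t : ℝ) : UnitAddTorus (Fin (primesUpTo M).card) :=
  fun j => ((Real.log (prime M j) / (2 * Real.pi) * t : ℝ) : UnitAddCircle)

/-- the product over the primes `p ≤ M` of the Poisson kernels with parameter `r = p^(-1/2)`: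
`∏ (1 - r²) / |1 - r e(x_p)|²` -/
noncomputable def density (M : ℕ) (x : UnitAddTorus (Fin (primesUpTo M).card)) : ℝ :=
  ∏ j, (1 - ((prime M j : ℝ) ^ (-(1 / 2) : ℝ)) ^ 2) /
    ‖1 - (((prime M j : ℝ) ^ (-(1 / 2) : ℝ) : ℝ) : ℂ) * fourier 1 (x j)‖ ^ 2

open Pool.Agent.Q286.SB Pool.Agent.Q286.UZ

lemma zz_eq (t : ℝ) : ‖riemannZeta (1 / 2 + t * I)‖ ^ 2 = zz t := by
  unfold zz Pool.Agent.H306R2.SM.cl
  rfl

lemma S_eq (ε : ℝ) (K : Set ℂ) (f : ℂ → ℂ) : S ε K f = Pool.Agent.Y834.UT.SS ε K f := rfl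

lemma S_open {K : Set ℂ} (hK : IsCompact K) (hKs : ∀ z ∈ K, 1 / 2 < z.re ∧ z.re < 1) (f : ℂ → ℂ)
    (ε : ℝ) : IsOpen (S ε K f) := SS_open hK (fun z hz => (hKs z hz).2) f ε

lemma M2_eq {A : Set ℝ} (hA : MeasurableSet A) (T : ℝ) : M2 A T = (mu (A ∩ Icc 0 T)).toReal := by
  unfold M2
  rw [mu_eq (hA.inter measurableSet_Icc) inter_subset_right, ENNReal.toReal_ofReal]
  · simp only [zz_eq]
  · exact integral_nonneg fun t => zz_nonneg t

lemma law (M : ℕ) (g : C(UnitAddTorus (Fin (primesUpTo M).card), ℝ)) :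
    Tendsto (fun T : ℝ => (∫ t in (0:ℝ)..T, ‖riemannZeta (1 / 2 + t * I)‖ ^ 2 * g (point M t)) /
      (T * Real.log T)) atTop
      (𝓝 (∫ x, g x * density M x ∂(Measure.pi fun _ => AddCircle.haarAddCircle))) := by
  rw [Metric.tendsto_nhds]
  intro η hη
  filter_upwards [torus_int M g (half_pos hη), eventually_gt_atTop 1] with T hT hT1
  have hTL := TL_pos hT1
  have e1 : ∫ t in (0:ℝ)..T, ‖riemannZeta (1 / 2 + t * I)‖ ^ 2 * g (point M t) =
      ∫ t in (0:ℝ)..T, zz t * g (tP M t) := by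
    refine intervalIntegral.integral_congr fun t _ => ?_
    simp only [zz_eq]
    rfl
  have e2 : ∫ x, g x * density M x ∂(Measure.pi fun _ => AddCircle.haarAddCircle) = mW M g := rfl
  rw [e1, e2, Real.dist_eq]
  have e3 : (∫ t in (0:ℝ)..T, zz t * g (tP M t)) / (T * Real.log T) - mW M g =
      ((∫ t in (0:ℝ)..T, zz t * g (tP M t)) - mW M g * (T * Real.log T)) / (T * Real.log T) := by
    rw [sub_div, mul_div_assoc, div_self hTL.ne', mul_one]
  rw [e3, abs_div, abs_of_pos hTL, div_lt_iff₀ hTL]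
  refine lt_of_le_of_lt hT ?_
  exact mul_lt_mul_of_pos_right (by linarith) hTL

theorem result :
    -- (1) the joint law of the numbers `p^(-it)` under `|ζ(1/2 + it)|² dt`
    (∀ (M : ℕ) (g : C(UnitAddTorus (Fin (primesUpTo M).card), ℝ)),
      Tendsto (fun T : ℝ => (∫ t in (0:ℝ)..T, ‖riemannZeta (1 / 2 + t * I)‖ ^ 2 * g (point M t)) /
        (T * Real.log T)) atTop
        (𝓝 (∫ x, g x * density M x ∂(Measure.pi fun _ => AddCircle.haarAddCircle)))) ∧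
    -- (2) the limit laws, for arbitrary functions on compact subsets of the strip
    (∀ (K : Set ℂ) (f : ℂ → ℂ), IsCompact K → (∀ z ∈ K, 1 / 2 < z.re ∧ z.re < 1) →
      (∀ ε : ℝ, IsOpen (S ε K f)) ∧
      ∃ (D : ℝ → ℝ) (E : Set ℝ), Monotone D ∧ (∀ ε, 0 ≤ D ε ∧ D ε ≤ 1) ∧ E.Countable ∧
        ((∀ ε : ℝ, 0 < ε → 0 < D ε) ↔ IsTarget K f) ∧
        ∀ ε : ℝ, 0 < ε → ε ∉ E →
          Tendsto (fun T : ℝ => M2 (S ε K f) T / (T * Real.log T)) atTop (𝓝 (D ε))) ∧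
    -- the mean of `|ζ(1/2 + it)|²` over the classes, if `f` is a target
    (∀ (K : Set ℂ) (f : ℂ → ℂ), IsCompact K → (∀ z ∈ K, 1 / 2 < z.re ∧ z.re < 1) →
      IsTarget K f → ∃ E : Set ℝ, E.Countable ∧ ∀ ε : ℝ, 0 < ε → ε ∉ E → ∃ c : ℝ, 0 < c ∧
        Tendsto (fun T : ℝ => M2 (S ε K f) T / (volume (S ε K f ∩ Icc 0 T)).toReal / Real.log T)
          atTop (𝓝 c)) ∧
    -- universality for the measure `|ζ(1/2 + it)|² dt`
    (∀ (K : Set ℂ) (f : ℂ → ℂ), IsCompact K → (∀ z ∈ K, 1 / 2 < z.re ∧ z.re < 1) →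
      [IsTarget K f,
        ∀ ε : ℝ, 0 < ε → ∃ κ : ℝ, 0 < κ ∧ ∃ T₀ : ℝ, ∀ T ≥ T₀,
          κ * (T * Real.log T) ≤ M2 (S ε K f) T,
        ∀ ε : ℝ, 0 < ε → ∃ κ : ℝ, 0 < κ ∧ ∀ T₀ : ℝ, ∃ T ≥ T₀,
          κ * (T * Real.log T) ≤ M2 (S ε K f) T].TFAE) ∧
    -- (3) the local criterion
    (∀ K : Set ℂ, IsCompact K → (∀ z ∈ K, 1 / 2 < z.re ∧ z.re < 1) →
      ((∀ z ∈ interior (hull K), riemannZeta z ≠ 0) ↔
        ∀ ε : ℝ, 0 < ε → ∃ κ : ℝ, 0 < κ ∧ ∃ T₀ : ℝ, ∀ T ≥ T₀,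
          κ * (T * Real.log T) ≤ M2 (S ε K riemannZeta) T) ∧
      (∀ z₀ ∈ interior (hull K), riemannZeta z₀ = 0 → ∀ δ : ℝ, δ < 2 / 3 * (z₀.re - 1 / 2) →
        ∃ ε : ℝ, 0 < ε ∧ ∃ T₀ : ℝ, ∀ T ≥ T₀, M2 (S ε K riemannZeta) T ≤ T ^ (1 - δ))) ∧
    -- (4) the Riemann hypothesis
    [RiemannHypothesis,
      ∀ K : Set ℂ, IsCompact K → (∀ z ∈ K, 1 / 2 < z.re ∧ z.re < 1) → ∀ ε : ℝ, 0 < ε →
        ∃ κ : ℝ, 0 < κ ∧ ∃ T₀ : ℝ, ∀ T ≥ T₀, κ * (T * Real.log T) ≤ M2 (S ε K riemannZeta) T,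
      ∀ (z₀ : ℂ) (r : ℝ), 0 < r → (∀ z ∈ Metric.closedBall z₀ r, 1 / 2 < z.re ∧ z.re < 1) →
        ∀ ε : ℝ, 0 < ε → ∀ δ : ℝ, 0 < δ → ∀ T₀ : ℝ, ∃ T ≥ T₀,
          T ^ (1 - δ) < M2 (S ε (Metric.closedBall z₀ r) riemannZeta) T].TFAE := by
  have hm : ∀ (K : Set ℂ) (f : ℂ → ℂ), IsCompact K → (∀ z ∈ K, 1 / 2 < z.re ∧ z.re < 1) →
      ∀ ε T : ℝ, M2 (S ε K f) T = (mu (Pool.Agent.Y834.UT.SS ε K f ∩ Icc 0 T)).toReal :=
    fun K f hK hKs ε T => M2_eq (S_open hK hKs f ε).measurableSet T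
  have hlow : ∀ (K : Set ℂ) (f : ℂ → ℂ), IsCompact K → (∀ z ∈ K, 1 / 2 < z.re ∧ z.re < 1) →
      ∀ ε : ℝ, 0 < ε → 0 < WD K f (ε / 2) → ∃ κ : ℝ, 0 < κ ∧ ∃ T₀ : ℝ, ∀ T ≥ T₀,
          κ * (T * Real.log T) ≤ M2 (S ε K f) T := by
    intro K f hK hKs ε hε hp
    have h1 := wlaws hK hKs f (half_pos hε) (half_lt_self hε) (half_pos hp)
    obtain ⟨T₀, hT₀⟩ := eventually_atTop.1 h1
    refine ⟨WD K f (ε / 2) / 2, half_pos hp, T₀, fun T hT => ?_⟩
    have h2 := (hT₀ T hT).2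
    rw [hm K f hK hKs]
    have e : WD K f (ε / 2) - WD K f (ε / 2) / 2 = WD K f (ε / 2) / 2 := by ring
    rw [e] at h2
    rcases le_or_gt (WD K f (ε / 2) / 2 * (T * Real.log T)) 0 with h | h
    · exact h.trans ENNReal.toReal_nonneg
    · exact (ENNReal.ofReal_le_iff_le_toReal (mu_ne_top _ T)).1 h2
  have huniv : ∀ (K : Set ℂ) (f : ℂ → ℂ), IsCompact K → (∀ z ∈ K, 1 / 2 < z.re ∧ z.re < 1) →
      [IsTarget K f,
        ∀ ε : ℝ, 0 < ε → ∃ κ : ℝ, 0 < κ ∧ ∃ T₀ : ℝ, ∀ T ≥ T₀,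
          κ * (T * Real.log T) ≤ M2 (S ε K f) T,
        ∀ ε : ℝ, 0 < ε → ∃ κ : ℝ, 0 < κ ∧ ∀ T₀ : ℝ, ∃ T ≥ T₀,
          κ * (T * Real.log T) ≤ M2 (S ε K f) T].TFAE := by
    intro K f hK hKs
    tfae_have 1 → 2 := fun h ε hε => hlow K f hK hKs ε hε (wpos hK hKs h (half_pos hε))
    tfae_have 2 → 3 := by
      intro h ε hε
      obtain ⟨κ, hκ, T₀, hT⟩ := h ε hε
      exact ⟨κ, hκ, fun T1 => ⟨max T1 T₀, le_max_left _ _, hT _ (le_max_right _ _)⟩⟩
    tfae_have 3 → 1 := by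
      intro h
      refine wconv hK hKs fun ε hε => ?_
      obtain ⟨κ, hκ, hT⟩ := h ε hε
      refine ⟨κ, hκ, fun T0 => ?_⟩
      obtain ⟨T, hTT, h1⟩ := hT T0
      refine ⟨T, hTT, ?_⟩
      rw [hm K f hK hKs] at h1
      exact h1
    tfae_finish
  have hpos : ∀ (K : Set ℂ) (f : ℂ → ℂ), IsCompact K → (∀ z ∈ K, 1 / 2 < z.re ∧ z.re < 1) →
      ((∀ ε : ℝ, 0 < ε → 0 < WD K f ε) ↔ IsTarget K f) := by
    intro K f hK hKs
    constructor
    · intro h
      exact ((huniv K f hK hKs).out 0 1).2 fun ε hε => hlow K f hK hKs ε hε (h _ (half_pos hε))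
    · exact fun h ε hε => wpos hK hKs h hε
  have hlim : ∀ (K : Set ℂ) (f : ℂ → ℂ), IsCompact K → (∀ z ∈ K, 1 / 2 < z.re ∧ z.re < 1) →
      ∀ ε : ℝ, 0 < ε → ε ∉ {x | ¬ ContinuousAt (WD K f) x} →
          Tendsto (fun T : ℝ => M2 (S ε K f) T / (T * Real.log T)) atTop (𝓝 (WD K f ε)) := by
    intro K f hK hKs ε hε hcont
    rw [Set.mem_ofPred_eq, not_not] at hcont
    have h1 := wlimits hK hKs f hε hcont
    simp only [hm K f hK hKs]
    exact h1
  have hrare : ∀ K : Set ℂ, IsCompact K → (∀ z ∈ K, 1 / 2 < z.re ∧ z.re < 1) →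
      ∀ z₀ ∈ interior (hull K), riemannZeta z₀ = 0 → ∀ δ : ℝ, δ < 2 / 3 * (z₀.re - 1 / 2) →
        ∃ ε : ℝ, 0 < ε ∧ ∃ T₀ : ℝ, ∀ T ≥ T₀, M2 (S ε K riemannZeta) T ≤ T ^ (1 - δ) := by
    intro K hK hKs z₀ hz₀ h0 δ hδ
    obtain ⟨ε, hε, h⟩ := rare_mu hK hKs hz₀ h0 hδ
    obtain ⟨T₀, hT₀⟩ := eventually_atTop.1 h
    refine ⟨ε, hε, T₀, fun T hT => ?_⟩
    rw [hm K riemannZeta hK hKs]
    exact hT₀ T hT
  refine ⟨law, fun K f hK hKs => ⟨S_open hK hKs f, WD K f, {x | ¬ ContinuousAt (WD K f) x},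
    WD_mono K f, fun ε => ⟨WD_nonneg K f ε, WD_le_one K f ε⟩,
    (WD_mono K f).countable_not_continuousAt, hpos K f hK hKs, hlim K f hK hKs⟩, ?_, huniv, ?_, ?_⟩
  · intro K f hK hKs ht
    refine ⟨{x | ¬ ContinuousAt (WD K f) x} ∪ {x | ¬ ContinuousAt (DD K f) x},
      ((WD_mono K f).countable_not_continuousAt).union
        ((DD_mono K f).countable_not_continuousAt), fun ε hε hcont => ?_⟩
    rw [Set.mem_union, not_or] at hcont
    have h1 := hlim K f hK hKs ε hε hcont.1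
    have h2c := hcont.2
    rw [Set.mem_ofPred_eq, not_not] at h2c
    have h2 := (limits hK hKs f hε h2c).1
    have d1 := wpos hK hKs (f := f) ht hε
    have d2 := target_pos hK hKs (f := f) ht hε
    refine ⟨WD K f ε / DD K f ε, by positivity, ?_⟩
    refine (h1.div h2 d2.ne').congr' ?_
    filter_upwards [eventually_gt_atTop (1:ℝ)] with T hT
    have hT0 : T ≠ 0 := by linarith
    have hL : Real.log T ≠ 0 := (Real.log_pos hT).ne'
    rw [S_eq]
    rcases eq_or_ne (volume (Pool.Agent.Y834.UT.SS ε K f ∩ Icc 0 T)).toReal 0 with h | h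
    · simp only [Pi.div_apply, h, zero_div, div_zero]
    · simp only [Pi.div_apply]
      field_simp
  · intro K hK hKs
    refine ⟨⟨fun h => ?_, fun h => ?_⟩, hrare K hK hKs⟩
    · exact ((huniv K riemannZeta hK hKs).out 0 1).1 (tgt_zeta hK hKs h)
    · intro z₀ hz₀ h0
      obtain ⟨ε, hε, T1, hT1⟩ := hrare K hK hKs z₀ hz₀ h0 0 (by
        obtain ⟨a, b, B, h1, h2, h3, h4, hR⟩ := Pool.Agent.Y834.UT.exists_hull_rect hK hKs
        have := h1.trans_le (hR (interior_subset hz₀)).1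
        linarith)
      obtain ⟨κ, hκ, T2, hT2⟩ := h ε hε
      have hev : ∀ᶠ T : ℝ in atTop, 1 / κ < Real.log T :=
        Real.tendsto_log_atTop.eventually_gt_atTop _
      obtain ⟨T, ⟨⟨k1, k2⟩, k3⟩, k4⟩ := (((hev.and (eventually_ge_atTop T1)).and
        (eventually_ge_atTop T2)).and (eventually_gt_atTop (0:ℝ))).exists
      have e1 := hT1 T k2
      have e2 := hT2 T k3
      rw [sub_zero, Real.rpow_one] at e1
      rw [div_lt_iff₀ hκ] at k1
      nlinarith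
  · have h := rh_w
    have e12 := h.out 0 1
    have e13 := h.out 0 2
    tfae_have 1 → 2 := fun hRH K hK hKs ε hε =>
      hlow K riemannZeta hK hKs ε hε (e12.1 hRH K hK hKs (ε / 2) (half_pos hε))
    tfae_have 2 → 1 := by
      intro h2
      refine e12.2 fun K hK hKs ε hε => ?_
      have h3 : IsTarget K riemannZeta := ((huniv K riemannZeta hK hKs).out 0 1).2
        fun ε hε => h2 K hK hKs ε hε
      exact wpos hK hKs h3 hε
    tfae_have 1 ↔ 3 := by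
      rw [e13]
      constructor
      · intro h3 z₀ r hr hs ε hε δ hδ T₀
        obtain ⟨T, hT, h4⟩ := h3 z₀ r hr hs ε hε δ hδ T₀
        refine ⟨T, hT, ?_⟩
        rw [hm _ riemannZeta (isCompact_closedBall z₀ r) hs]
        exact h4
      · intro h3 z₀ r hr hs ε hε δ hδ T₀
        obtain ⟨T, hT, h4⟩ := h3 z₀ r hr hs ε hε δ hδ T₀
        refine ⟨T, hT, ?_⟩
        rw [hm _ riemannZeta (isCompact_closedBall z₀ r) hs] at h4
        exact h4
    tfae_finish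

end Pool.Agent.Results.MP_80d0cf_nt.SecondMomentInClasses
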