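import Pool.Agent.Q97.RD.Zd

/-!
# The moments of zeta dominate the discrete moments over the zeros

For every real `β > 0`, `A ≥ 0`, `a ≥ 0` (respectively `a > 0`), uniformly in the Gaussian windows
`w(t) = exp(-((t-T)/U)²)`, `1 ≤ U ≤ T / log T`, and with `M = ∫ |ζ(1/2+it)|^β w(t) dt`:

* `∑ m_ρ |ζ(z_ρ)|^β w(Im z_ρ) ≤ (K + o(1)) (log T) M`, the sum over the zeros `ρ` with
  `|Re ρ - 1/2| ≤ A / log T`, with arbitrary points `z_ρ` with `|z_ρ - ρ| ≤ a / log T`, where
  `K = (2 (1+e) / π) (1 + (1+e) β (A+a)) exp(β (A + (1+e) a))`;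
* `∑ |ζ'(ρ)|^β w(Im ρ) ≤ (K' + o(1)) (log T)^(β+1) M`, where
  `K' = (2 (1+e) / π) (1 + β + (1+e) β A) ((1+e) exp(1+A))^β`.

No hypothesis is made on the spacing of the zeros: a cluster of `n` zeros near `s` makes
`|ζ(s)|^β` small compared with its mean over a circle, by Jensen's formula, and this compensates
the multiplicity `n` with which the neighbourhood of `s` is counted.
-/

set_option autoImplicit false

open MeasureTheory Filter Metric Set
open scoped ENNReal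

namespace Pool.Agent.Results.MP_80d0cf_nt.SumsOverZeros

noncomputable section

/-- the multiplicity of a zero of zeta -/
def mult (ρ : ℂ) : ℕ := analyticOrderNatAt riemannZeta ρ

/-- the zeros `ρ` of zeta with `|Re ρ - 1/2| ≤ b` -/
def zeros (b : ℝ) : Set ℂ := {ρ | riemannZeta ρ = 0 ∧ |ρ.re - 1 / 2| ≤ b}

/-- the Gaussian window of width `U` at `T` -/
def window (T U t : ℝ) : ℝ := Real.exp (-((t - T) / U) ^ 2)

/-- the moment of order `β` in the window -/
def moment (β T U : ℝ) : ℝ := ∫ t : ℝ, ‖riemannZeta (1 / 2 + t * Complex.I)‖ ^ β * window T U t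

/-- the constant for the values near the zeros -/
def K (β A a : ℝ) : ℝ := 2 * (1 + Real.exp 1) / Real.pi * (1 + (1 + Real.exp 1) * β * (A + a)) *
  Real.exp (β * (A + (1 + Real.exp 1) * a))

/-- the constant for the derivative at the zeros -/
def K' (β A : ℝ) : ℝ := 2 * (1 + Real.exp 1) / Real.pi * (1 + β + (1 + Real.exp 1) * β * A) *
  ((1 + Real.exp 1) * Real.exp (1 + A)) ^ β

theorem moment_eq (β T U : ℝ) : moment β T U = Q97.RB.MB β T U (1 / 2) := by
  unfold moment Q97.RB.MB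
  have : ∀ t : ℝ, (1 / 2 + t * Complex.I : ℂ) = ((1 / 2 : ℝ) : ℂ) + t * Complex.I := by
    intro t
    norm_num
  simp only [this]
  rfl

theorem K_eq {β A a : ℝ} (hβ : 0 < β) :
    Q97.RD.KZ β A a (1 / (β * (1 + Real.exp 1))) = K β A a := by
  unfold Q97.RD.KZ K
  have hE := Real.exp_pos 1
  have h1 : 2 * (A + a + 1 / (β * (1 + Real.exp 1))) /
      (Real.pi * Real.exp 1 * β * (1 / (β * (1 + Real.exp 1))) ^ 2) =
      2 * (1 + Real.exp 1) / Real.pi * (1 + (1 + Real.exp 1) * β * (A + a)) * (Real.exp 1)⁻¹ := by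
    field_simp
    ring
  have h2 : β * (A + (a + 1 / (β * (1 + Real.exp 1))) * (1 + Real.exp 1)) =
      β * (A + (1 + Real.exp 1) * a) + 1 := by
    field_simp
    ring
  rw [h1, h2, Real.exp_add]
  field_simp

theorem K'_eq {β A : ℝ} :
    ((1 / (1 + Real.exp 1)) ^ β)⁻¹ * K β A (1 / (1 + Real.exp 1)) = K' β A := by
  unfold K K'
  have hE := Real.exp_pos 1
  have h1 : ((1 / (1 + Real.exp 1)) ^ β)⁻¹ = (1 + Real.exp 1) ^ β := by
    rw [one_div, Real.inv_rpow (by positivity), inv_inv]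
  have h2 : 1 + (1 + Real.exp 1) * β * (A + 1 / (1 + Real.exp 1)) =
      1 + β + (1 + Real.exp 1) * β * A := by
    field_simp
    ring
  have h3 : Real.exp (β * (A + (1 + Real.exp 1) * (1 / (1 + Real.exp 1)))) =
      Real.exp (1 + A) ^ β := by
    rw [← Real.exp_mul]
    congr 1
    field_simp
    ring
  rw [h1, h2, h3, Real.mul_rpow (by positivity) (Real.exp_pos _).le]
  ring

theorem result (β : ℝ) (hβ : 0 < β) (A : ℝ) (hA : 0 ≤ A) :
    (∀ a : ℝ, 0 ≤ a → ∀ ε : ℝ, 0 < ε →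
      ∀ᶠ T : ℝ in atTop, ∀ U : ℝ, 1 ≤ U → U ≤ T / Real.log T →
        ∀ z : ℂ → ℂ, (∀ ρ ∈ zeros (A / Real.log T), ‖z ρ - ρ‖ ≤ a / Real.log T) →
          ∑' ρ : zeros (A / Real.log T), (mult ρ : ℝ≥0∞) *
            ENNReal.ofReal (‖riemannZeta (z ρ)‖ ^ β * window T U (z ρ).im) ≤
          ENNReal.ofReal ((K β A a + ε) * Real.log T * moment β T U)) ∧
    (∀ ε : ℝ, 0 < ε →
      ∀ᶠ T : ℝ in atTop, ∀ U : ℝ, 1 ≤ U → U ≤ T / Real.log T →
        ∑' ρ : zeros (A / Real.log T),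
            ENNReal.ofReal (‖deriv riemannZeta ρ‖ ^ β * window T U (ρ : ℂ).im) ≤
          ENNReal.ofReal ((K' β A + ε) * Real.log T ^ (β + 1) * moment β T U)) := by
  have hE := Real.exp_pos 1
  have hR : 0 < 1 / (β * (1 + Real.exp 1)) := by positivity
  refine ⟨fun a ha ε hε => ?_, fun ε hε => ?_⟩
  · filter_upwards [Q97.RD.near_zeros hβ hA ha hR hε, eventually_ge_atTop 3] with T h1 hT U hU1 hU2 z hz
    have h2 := h1 U ⟨hT, hU1, hU2⟩ z hz
    rw [K_eq hβ, ← mul_assoc] at h2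
    rw [moment_eq]
    exact h2
  · have ha : (0 : ℝ) < 1 / (1 + Real.exp 1) := by positivity
    have hc : 0 < ((1 / (1 + Real.exp 1)) ^ β)⁻¹ := by positivity
    filter_upwards [Q97.RD.deriv_zeros hβ hA ha hR
      (ε := (((1 / (1 + Real.exp 1)) ^ β)⁻¹)⁻¹ * ε) (by positivity), eventually_ge_atTop 3]
      with T h1 hT U hU1 hU2
    have h2 := h1 U ⟨hT, hU1, hU2⟩
    rw [K_eq hβ, mul_add, mul_inv_cancel_left₀ hc.ne', K'_eq, ← mul_assoc] at h2
    rw [moment_eq]
    exact h2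

end

end Pool.Agent.Results.MP_80d0cf_nt.SumsOverZeros
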